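import Pool.Agent.R780.OrbConfReflector
import Pool.Agent.R780.Universal

/-!
The Fadell-Neuwirth projection `f(M) : PB_2(M) → PB_1(M) = M` is not a quasifibration for the
reflector orbifold `M = ℂ/Gal(ℂ/ℝ)` (the plane modulo complex conjugation).
-/

open Pool.Agent.R780.OrbConf

/-- Let `M` be the orbifold `ℂ/H`, where `H = Gal(ℂ/ℝ)` is the group of order two generated by
complex conjugation.  There are a smooth point `y` of `PB_1(M) = M` and a smooth point `x` of the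
fibre `F_y` such that, for every model `E` of `EH` (and such models exist) and all base points
`e₀, e` of `E`, the sequence
`π₁^orb(F_y, x) → π₁^orb(PB_2(M), (y,x)) → π₁^orb(PB_1(M), y)` is not exact in the middle. -/
theorem Pool.Agent.Results.MP_fa0058_gt.ReflectorNotQuasifibration.result :
    ∃ (y : ℂ) (x : FibY (ℂ ≃ₐ[ℝ] ℂ) ℂ y),
      (∀ h : ℂ ≃ₐ[ℝ] ℂ, h • y = y → h = 1) ∧ (∀ h : ℂ ≃ₐ[ℝ] ℂ, h • x.1 = x.1 → h = 1) ∧
      (∃ (E : Type) (_ : TopologicalSpace E) (_ : MulAction (ℂ ≃ₐ[ℝ] ℂ) E),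
        IsUniversal (ℂ ≃ₐ[ℝ] ℂ) E) ∧
      ∀ (E : Type) [TopologicalSpace E] [MulAction (ℂ ≃ₐ[ℝ] ℂ) E],
        IsUniversal (ℂ ≃ₐ[ℝ] ℂ) E → ∀ e₀ e : E,
          (FundamentalGroup.map (incl (ℂ ≃ₐ[ℝ] ℂ) ℂ E e₀ y) (BF.mk (e, x))).range ≠
            (FundamentalGroup.map (forget (ℂ ≃ₐ[ℝ] ℂ) ℂ E)
              (incl (ℂ ≃ₐ[ℝ] ℂ) ℂ E e₀ y (BF.mk (e, x)))).ker := by
  refine ⟨3 * Complex.I, xpt, ?_, ?_, ?_, ?_⟩
  · exact gal_smooth _ (by simp)
  · exact gal_smooth _ (by simp [xpt])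
  · exact ⟨FunSpace _, inferInstance, inferInstance, isUniversal_funSpace _⟩
  · intro E _ _ hE e₀ e
    exact not_exact e₀ e hE
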